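import Pool.Agent.L5helper72.SG.Asm
import Pool.Agent.L5helper72.SG.Fol

/-!
# The Selmer group conjecture at `ℓ` for almost all superelliptic curves with rational branch points
over `k(t)`, `k` an infinite finitely generated field of any characteristic

The definitions of the Jacobian `J`, of its Galois cohomology over `K` and of the groups of locally
trivial classes are in `Pool.Agent.Y713.SE.Stm`.
-/

set_option autoImplicit false
set_option linter.all false

open Polynomial Filter Topology
open scoped Classical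

namespace Pool.Agent.Results.MP_1bdb59_nt.FinitelyGeneratedFields

/-- The polynomial `g i = c (i, 0) + c (i, 1) t + ... + c (i, n) t ^ n` over `k`. -/
noncomputable def coeffPoly {A : Type} (k : Type) [CommRing A] [Field k] [Algebra A k] {N n : ℕ}
    (c : Fin (N + 1) × Fin (n + 1) → A) (i : Fin (N + 1)) : k[X] :=
  ∑ j : Fin (n + 1), C (algebraMap A k (c (i, j))) * X ^ (j : ℕ)

/-- The polynomial `g 0 (t) (x - g 1 (t)) ... (x - g N (t))` in `x` over `k(t)`. -/
noncomputable def F {A : Type} (k : Type) [CommRing A] [Field k] [Algebra A k] {N n : ℕ}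
    (c : Fin (N + 1) × Fin (n + 1) → A) : (RatFunc k)[X] :=
  C (algebraMap k[X] (RatFunc k) (coeffPoly k c 0)) *
    ∏ i : Fin N, (X - C (algebraMap k[X] (RatFunc k) (coeffPoly k c i.succ)))

/-- The polynomial `δ (x - g 0 (t)) ... (x - g N (t))` in `x` over `k(t)`. -/
noncomputable def Fδ {A : Type} (k : Type) [CommRing A] [Field k] [Algebra A k] {N n : ℕ}
    (c : Fin (N + 1) × Fin (n + 1) → A) (δ : k) : (RatFunc k)[X] :=
  C (algebraMap k[X] (RatFunc k) (C δ)) *
    ∏ i : Fin (N + 1), (X - C (algebraMap k[X] (RatFunc k) (coeffPoly k c i)))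

/-- The property `P` holds for 100 percent of the elements of the finite sets `S M`, as `M` tends to
infinity. -/
def AlmostAll {T : Type} (S : ℕ → Finset T) (P : T → Prop) : Prop :=
  Tendsto (fun M => (((S M).filter P).card : ℝ) / ((S M).card : ℝ)) atTop (𝓝 1)

/-- The finite sets `S M` of tuples of elements of `A` are equidistributed, as `M` tends to infinity,
modulo every ideal of finite index; in characteristic zero this is only required for the ideals for
which moreover every class contains an integer. -/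
def Equidistributed {A I : Type} [CommRing A] [Fintype I] (S : ℕ → Finset (I → A)) : Prop :=
  ∀ 𝔞 : Ideal A, (Finite (A ⧸ 𝔞) ∧ (CharZero A → ∀ x : A ⧸ 𝔞, ∃ n : ℤ, (n : A ⧸ 𝔞) = x)) →
    ∀ x : I → A, Tendsto (fun M => (((S M).filter fun c => ∀ i, c i - x i ∈ 𝔞).card : ℝ) /
      ((S M).card : ℝ)) atTop (𝓝 (1 / (Nat.card (A ⧸ 𝔞) : ℝ) ^ Fintype.card I))

/-- The finite sets `S M` of tuples are nonempty for all large `M` and, for every tuple `v` with
entries in `V`, the proportion of the elements `c` of `S M` for which `c + v` is not in `S M` tends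
to zero. -/
def AsymptoticallyInvariant {A I : Type} [CommRing A] (V : AddSubgroup A)
    (S : ℕ → Finset (I → A)) : Prop :=
  (∀ᶠ M in atTop, (S M).Nonempty) ∧ ∀ v : I → A, (∀ i, v i ∈ V) →
    Tendsto (fun M => (((S M).filter fun c => c + v ∉ S M).card : ℝ) / ((S M).card : ℝ))
      atTop (𝓝 0)

/-- Let `A` be an infinite domain which is finitely generated as a ring, `k` its field of fractions,
`ℓ` a prime number, `ζ ∈ k` a primitive `ℓ`-th root of unity and `n ≥ 4`. A tuple `c` of elements
`c (i, j)` of `A`, `0 ≤ i ≤ N`, `0 ≤ j ≤ n`, gives the polynomials `g 0, ..., g N`.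

(1) Let `S M` be finite sets of tuples which are equidistributed. Then for 100 percent of the tuples
the following holds for the Jacobian `J` of the curve
`y ^ ℓ = g 0 (t) (x - g 1 (t)) ... (x - g N (t))` over `k(t)` if `ℓ` does not divide `N`, and for the
Jacobians `J` of all the curves `y ^ ℓ = δ (x - g 0 (t)) ... (x - g N (t))`, `δ ∈ k`, `δ ≠ 0`, if
`N ≥ 2` and `ℓ` does not divide `N + 1`: every class of `ℓ`-power order in `H ^ 1 (k(t), J)` which is
zero over the completions at all closed points of the affine line is zero, in particular the `ℓ`-adic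
Tate module of the Tate-Shafarevich group of `J` is zero.

(2) Let `V = A` or, in characteristic zero, let `V` be any subgroup of `A` which contains `1`. The sets
`S M` are equidistributed if they are asymptotically invariant under translations by the tuples with
entries in `V`. They are so if they consist of the tuples all whose entries `c q` are combinations
with integral coefficients of size at most `H M q j` of a basis `b j` of `V`, where `H M q j` tends to
infinity with `M` for all `q` and `j`, and also if they are finite subgroups such that every tuple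
with entries in `V` is in `S M` for all large `M`. -/
theorem result (A k : Type) [CommRing A] [IsDomain A] [Infinite A] [Algebra.FiniteType ℤ A]
    [Field k] [Algebra A k] [IsFractionRing A k] (ℓ : ℕ) (hℓ : ℓ.Prime) (ζ : k)
    (hζ : IsPrimitiveRoot ζ ℓ) (N n : ℕ) (hn : 4 ≤ n)
    (S : ℕ → Finset (Fin (N + 1) × Fin (n + 1) → A)) :
    (Equidistributed S → AlmostAll S fun c =>
      (¬ ℓ ∣ N → Y713.Jac.ShaPrimaryTrivial ℓ (F k c) k[X] ∧
        Y713.Jac.ShaTateTrivial ℓ (F k c) k[X]) ∧
      (2 ≤ N → ¬ ℓ ∣ N + 1 → ∀ δ : k, δ ≠ 0 → Y713.Jac.ShaPrimaryTrivial ℓ (Fδ k c δ) k[X] ∧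
          Y713.Jac.ShaTateTrivial ℓ (Fδ k c δ) k[X])) ∧
    (∀ V : AddSubgroup A, V = ⊤ ∨ (CharZero A ∧ (1 : A) ∈ V) →
      (AsymptoticallyInvariant V S → Equidistributed S) ∧
      (∀ (J : Type) (b : J → A), LinearIndependent ℤ b → AddSubgroup.closure (Set.range b) = V →
        ∀ H : ℕ → Fin (N + 1) × Fin (n + 1) → J → ℕ,
        (∀ q j, Tendsto (fun M => H M q j) atTop atTop) →
        (∀ M c, c ∈ S M ↔ ∃ m : Fin (N + 1) × Fin (n + 1) → J →₀ ℤ,
          (∀ q j, |m q j| ≤ (H M q j : ℤ)) ∧ ∀ q, c q = Finsupp.linearCombination ℤ b (m q)) →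
        AsymptoticallyInvariant V S) ∧
      (∀ G : ℕ → AddSubgroup (Fin (N + 1) × Fin (n + 1) → A),
        (∀ M c, c ∈ S M ↔ c ∈ G M) → (∀ v, (∀ q, v q ∈ V) → ∀ᶠ M in atTop, v ∈ G M) →
        AsymptoticallyInvariant V S)) := by
  obtain ⟨m, rfl⟩ : ∃ m, n = m + 2 := ⟨n - 2, by omega⟩
  refine ⟨fun hS => ?_, fun V hV => ⟨fun hS => ?_, ?_, ?_⟩⟩
  · have hne : ∀ᶠ M in atTop, (S M).Nonempty := L5helper72.SG.Equi.nonempty hS
    refine L5helper72.SG.AlmostAll.and ?_ ?_ hne
    · by_cases hN : ℓ ∣ N
      · exact L5helper72.SG.AlmostAll.of_forall (fun c h => absurd hN h) hne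
      · have h1 : L5helper72.SG.AlmostAll S _ :=
          L5helper72.SG.curves_equi (A := A) (k := k) hℓ hζ (N := N) (m := m) hN (by omega) hS
        exact h1.mono fun c (hc : Y713.Jac.ShaPrimaryTrivial ℓ (F k c) k[X]) _ => ⟨hc, hc.tate⟩
    · by_cases hN : 2 ≤ N ∧ ¬ ℓ ∣ N + 1
      · have h1 : L5helper72.SG.AlmostAll S _ :=
          L5helper72.SG.star_equi (A := A) (k := k) hℓ hζ (N := N) (m := m) hN.1 hN.2
            (by omega) hS
        exact h1.mono fun c (hc : ∀ δ : k, δ ≠ 0 →
          Y713.Jac.ShaPrimaryTrivial ℓ (Fδ k c δ) k[X]) _ _ δ hδ => ⟨hc δ hδ, (hc δ hδ).tate⟩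
      · exact L5helper72.SG.AlmostAll.of_forall (fun c h1 h2 => absurd ⟨h1, h2⟩ hN) hne
  · exact L5helper72.SG.Invt.equi hV (S := S) ⟨hS.1, fun v hv => hS.2 v hv⟩
  · intro J b hb hbV H hH hS
    have h1 := L5helper72.SG.invt_boxes V b hb hbV H hH S hS
    exact ⟨h1.1, fun v hv => h1.2 v hv⟩
  · intro G hS hG
    have h1 := L5helper72.SG.invt_subgroups {v : Fin (N + 1) × Fin (m + 2 + 1) → A |
      ∀ q, v q ∈ V} G (fun v hv => hG v hv) S hS
    exact ⟨h1.1, fun v hv => h1.2 v hv⟩

end Pool.Agent.Results.MP_1bdb59_nt.FinitelyGeneratedFields
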