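import Mathlib
import Pool.Agent.Results.MP_97f789_ag.RandomOrbits
import Pool.Agent.N918.EQ.Typ

/-!
# MP_1bdb59_nt: the Selmer group conjecture at `2` for elliptic curves with a point of order two over `k(t)`, along
# equidistributed sequences, metric sequences and random orbits, for all number fields at the same time

Every elliptic curve over `k(t)` with a rational point of order two has an equation

`E : y² = x (x² + a x + b)`

with polynomials `a`, `b`. Let `K` be a number field with an integral basis `ω`. We consider `a` of degree at
most `m` and `b` of degree at most `N`, `2 m ≤ N` and `N ≥ 5`, with coefficients in the ring of integers of `K`; the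
coordinates of the coefficients form a vector of `ρ` integers. The starting result
`Pool.Agent.Results.MP_97f789_ag.RandomOrbits` (helper140, with the local criterion of helper601) shows that
along random orbits of thin groups 100 percent of the pairs `(a, b)` are good over all finite extensions `k'` of
`K` (`GoodOver`): `b` and `a² - 4 b` are irreducible over `k'` and for EVERY extension field `L` of `k'` such that
for each element of `L` which is algebraic over `k'` the Galois group of its minimal polynomial over `k'` is
solvable (for example `L = k'`) and for EVERY constant `e ≠ 0` of `L` the twist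
`E_e : y² = x (x² + e a x + e² b)` over `L(t)` has the following properties:

* the classes of 2-power order in `H¹(L(t), E_e)` which are trivial over the completions of `L(t)` at all finite
  places are zero; in particular the 2-primary part of the Tate-Shafarevich group is zero and
  `E_e(L(t)) ⊗ ℤ_2 → Sel(E_e, ℤ_2)` is an isomorphism;
* every point of `E_e(L(t))` is the sum of a point of order at most two and the double of a point; if
  `E_e(L(t))` is finitely generated, it is finite;
* the classes in `V₂ Sel(E_e / L'(t))`, `L'` a separable closure of `L`, which are fixed by the Galois group come from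
  `E_e(L(t))` (the Tate conjecture for divisors at 2).

Here the pairs form ONE sequence: `c 0, c 1, c 2, ...` is a sequence of integral vectors, `S 0, S 1, ...` are finite
sets of times, and the property `GoodSequence ω m N` of `(S, c)` means that for ALL finite extensions `k'` of `K`
(in an algebraic closure) the proportion of the times `n` in `S T` for which the pair with the coordinates `c n` is
not good over `k'` tends to zero, `T → ∞`.

**Theorem.** This property is typical (`Pool.Agent.N918.EQ.Typical`):

(1) All `(S, c)` have it for which `c` is equidistributed along `S` modulo all `q` prime to some number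
(`S` is arbitrary: intervals, short intervals, the primes of an interval, any sparse sets).

For the sets of times `{0, ..., T - 1}`:

(2) For any Koksma sequences `f_{i,0}, f_{i,1}, ...` on intervals, for almost all `x` in the box the
sequence `c n = (⌊f_{i,n}(x_i)⌋)_i` has it.

(3) For ARBITRARY real numbers `a_{i,n}` with `|a_{i,n} - a_{i,n'}| ≥ δ > 0`, `n ≠ n'` (any different
integers: factorials, `2 ^ n`, ...), for almost all real vectors `x` the sequence
`c n = (⌊a_{i,n} x_i⌋)_i` has it.

(4) For different natural numbers `k_n` and `ξ_i ≠ 0`, for almost all `x` with all `x_i > 1` the sequence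
`c n = (⌊ξ_i x_i ^ (k_n)⌋)_i` has it.

(5) (The starting result.) Random orbits of groups of integral matrices which generate the special linear group
modulo almost all integers have it almost surely.

In (2) - (5) there is ONE null set of `x`, or of words, for all the fields `k'`.

Proof. The exceptional vectors for one field form a pronull set (the first part of the starting result), there are
countably many fields (`Pool.Agent.N918.EQ.ae_all_ext`, helper918), and typical sequences rarely visit pronull
sets (`Pool.Agent.N918.EQ`, with the engines `Pool.Agent.N24.KM` for metric sequences and `Pool.Agent.N24.RW` for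
random orbits).
-/

set_option autoImplicit false

namespace Pool.Agent.Results.MP_1bdb59_nt.OrderTwoTypical

open NumberField Filter Topology MeasureTheory
open Pool.Agent.N24.RW (ProNull)
open Pool.Agent.N918.EQ (Typical RareIn)
open Pool.Agent.Results.MP_97f789_ag.RandomOrbits (Idx GoodOver)

/-- The proportion of the `n` in `S T` without the property `P` tends to zero, `T → ∞`. -/
def Usually (S : ℕ → Finset ℕ) (P : ℕ → Prop) : Prop :=
  ∀ ε : ℝ, 0 < ε → ∃ T₀ : ℕ, ∀ T : ℕ, T₀ ≤ T →
    (({n : ℕ | n ∈ S T ∧ ¬ P n}.ncard : ℕ) : ℝ) ≤ ε * (S T).card

/-- For ALL finite extensions `k'` of `K`: for most of the times `n` the pair `(a, b)` with the coordinates `c n`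
is good over `k'`. -/
def GoodSequence {K : Type} [Field K] {J : Type} [Fintype J] (ω : Module.Basis J ℤ (𝓞 K)) (m N : ℕ)
    (S : ℕ → Finset ℕ) (c : ℕ → Idx m N J → ℤ) : Prop :=
  ∀ k' : IntermediateField K (AlgebraicClosure K), FiniteDimensional K k' →
    Usually S fun n => GoodOver ω k' (c n)

/-- **The Selmer group conjecture at `2` for elliptic curves with a point of order two over `k'(t)`, for all number
fields `k' ⊇ K`, along typical sequences.** -/
theorem result {K : Type} [Field K] [NumberField K] {J : Type} [Fintype J] [DecidableEq J]
    (ω : Module.Basis J ℤ (𝓞 K)) {m N : ℕ} (hmN : 2 * m ≤ N) (hN : 5 ≤ N) :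
    Typical (GoodSequence ω m N) := by
  refine Pool.Agent.N918.EQ.typical_of ?_ _ ?_
  · have hJ : 0 < Fintype.card J := by
      have : Nonempty J := ω.index_nonempty
      exact Fintype.card_pos
    rw [Fintype.card_prod, Fintype.card_sum, Fintype.card_fin, Fintype.card_fin]
    calc 2 ≤ (m + 1 + (N + 1)) * 1 := by omega
      _ ≤ (m + 1 + (N + 1)) * Fintype.card J := Nat.mul_le_mul_left _ hJ
  intro X _ ν P S c hR
  have h1 := Pool.Agent.N918.EQ.ae_all_ext (K := K) ν (fun x B => P x → RareIn S (c x) B) hR
    (fun E [Field E] => Unit) (fun E [Field E] _ => inferInstance)
    (fun E [Field E] [Algebra K E] _ c => GoodOver ω E c)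
    (fun E [Field E] [NumberField E] [Algebra K E] _ =>
      Pool.Agent.Results.MP_97f789_ag.RandomOrbits.pro ω hmN hN E)
  filter_upwards [h1] with x hx hP
  intro k' hk'
  exact hx k' hk' () hP

end Pool.Agent.Results.MP_1bdb59_nt.OrderTwoTypical
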