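import Pool.Agent.L5helper72.SG.AsmE
import Pool.Agent.L5helper72.SG.Fol

/-!
# The Selmer group conjecture at `ℓ` for almost all curves `y ^ ℓ = h(x) (x - g(t))` with a given `h`

The definitions of the Jacobian `J`, of its Galois cohomology over `K` and of the groups of locally
trivial classes are in `Pool.Agent.Y713.SE.Stm`.
-/

set_option autoImplicit false
set_option linter.all false

open Polynomial Filter Topology
open scoped Classical

namespace Pool.Agent.Results.MP_1bdb59_nt.PencilPullbacks

/-- The polynomial `g(t) = c 0 + c 1 t + ... + c n t ^ n` over `k`. -/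
noncomputable def coeffPoly {A : Type} (k : Type) [CommRing A] [Field k] [Algebra A k] {n : ℕ}
    (c : Fin (n + 1) → A) : k[X] :=
  ∑ j : Fin (n + 1), C (algebraMap A k (c j)) * X ^ (j : ℕ)

/-- The polynomial `h(x) (x - g(t))` in `x` over `k(t)`. -/
noncomputable def F {k : Type} [Field k] (h g : k[X]) : (RatFunc k)[X] :=
  h.map (algebraMap k (RatFunc k)) * (X - C (algebraMap k[X] (RatFunc k) g))

/-- The property `P` holds for 100 percent of the elements of the finite sets `S M`, as `M` tends to
infinity. -/
def AlmostAll {T : Type} (S : ℕ → Finset T) (P : T → Prop) : Prop :=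
  Tendsto (fun M => (((S M).filter P).card : ℝ) / ((S M).card : ℝ)) atTop (𝓝 1)

/-- The finite sets `S M` of tuples of elements of `A` are equidistributed, as `M` tends to infinity,
modulo every ideal of finite index; in characteristic zero this is only required for the ideals for
which moreover every class contains an integer. -/
def Equidistributed {A I : Type} [CommRing A] [Fintype I] (S : ℕ → Finset (I → A)) : Prop :=
  ∀ 𝔞 : Ideal A, (Finite (A ⧸ 𝔞) ∧ (CharZero A → ∀ x : A ⧸ 𝔞, ∃ n : ℤ, (n : A ⧸ 𝔞) = x)) →
    ∀ x : I → A, Tendsto (fun M => (((S M).filter fun c => ∀ i, c i - x i ∈ 𝔞).card : ℝ) /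
      ((S M).card : ℝ)) atTop (𝓝 (1 / (Nat.card (A ⧸ 𝔞) : ℝ) ^ Fintype.card I))

/-- The finite sets `S M` of tuples are nonempty for all large `M` and, for every tuple `v` with
entries in `V`, the proportion of the elements `c` of `S M` for which `c + v` is not in `S M` tends
to zero. -/
def AsymptoticallyInvariant {A I : Type} [CommRing A] (V : AddSubgroup A)
    (S : ℕ → Finset (I → A)) : Prop :=
  (∀ᶠ M in atTop, (S M).Nonempty) ∧ ∀ v : I → A, (∀ i, v i ∈ V) →
    Tendsto (fun M => (((S M).filter fun c => c + v ∉ S M).card : ℝ) / ((S M).card : ℝ))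
      atTop (𝓝 0)

theorem F_eq {k : Type} [Field k] (h g : k[X]) : F h g = Y713.SE.pencil (RatFunc k) h g := by
  unfold F Y713.SE.pencil
  congr 2

/-- Let `A` be an infinite domain which is finitely generated as a ring, `k` its field of fractions,
`k'` a finite separable extension of `k`, for example `k' = k`, `ℓ` a prime number and `ζ ∈ k'` a
primitive `ℓ`-th root of unity. Let `h` be a separable polynomial over `k'` of degree at least two
with all roots in `k'`, where `ℓ` does not divide `deg h + 1`, and let `n ≥ 1` be a degree bound,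
where `n ≥ 3` if `ℓ` divides `n`. A tuple `c` of elements `c 0, ..., c n` of `A` gives the polynomial
`g(t) = c 0 + c 1 t + ... + c n t ^ n`.

(1) Let `S M` be finite sets of tuples which are equidistributed. Then for 100 percent of the tuples
the following holds for the Jacobian `J` of the curve `y ^ ℓ = h(x) (x - g(t))` over `k'(t)`: every
class of `ℓ`-power order in `H ^ 1 (k'(t), J)` which is zero over the completions at all closed
points of the affine line is zero, in particular the `ℓ`-adic Tate module of the Tate-Shafarevich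
group of `J` is zero.

(2) Let `V = A` or, in characteristic zero, let `V` be any subgroup of `A` which contains `1`. The sets
`S M` are equidistributed if they are asymptotically invariant under translations by the tuples with
entries in `V`. They are so if they consist of the tuples all whose entries `c q` are combinations
with integral coefficients of size at most `H M q j` of a basis `b j` of `V`, where `H M q j` tends to
infinity with `M` for all `q` and `j`, and also if they are finite subgroups such that every tuple
with entries in `V` is in `S M` for all large `M`. -/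
theorem result (A k k' : Type) [CommRing A] [IsDomain A] [Infinite A] [Algebra.FiniteType ℤ A]
    [Field k] [Algebra A k] [IsFractionRing A k] [Field k'] [Algebra k k'] [Algebra A k']
    [IsScalarTower A k k'] [FiniteDimensional k k'] [Algebra.IsSeparable k k']
    (ℓ : ℕ) (hℓ : ℓ.Prime) (ζ : k') (hζ : IsPrimitiveRoot ζ ℓ) (h : k'[X]) (hs : h.Splits)
    (hsep : h.Separable) (h2 : 2 ≤ h.natDegree) (hh : ¬ ℓ ∣ h.natDegree + 1)
    (n : ℕ) (hn : 1 ≤ n) (hn' : ℓ ∣ n → 3 ≤ n) (S : ℕ → Finset (Fin (n + 1) → A)) :
    (Equidistributed S → AlmostAll S fun c =>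
      Y713.Jac.ShaPrimaryTrivial ℓ (F h (coeffPoly k' c)) k'[X] ∧
        Y713.Jac.ShaTateTrivial ℓ (F h (coeffPoly k' c)) k'[X]) ∧
    (∀ V : AddSubgroup A, V = ⊤ ∨ (CharZero A ∧ (1 : A) ∈ V) →
      (AsymptoticallyInvariant V S → Equidistributed S) ∧
      (∀ (J : Type) (b : J → A), LinearIndependent ℤ b → AddSubgroup.closure (Set.range b) = V →
        ∀ H : ℕ → Fin (n + 1) → J → ℕ,
        (∀ q j, Tendsto (fun M => H M q j) atTop atTop) →
        (∀ M c, c ∈ S M ↔ ∃ m : Fin (n + 1) → J →₀ ℤ,
          (∀ q j, |m q j| ≤ (H M q j : ℤ)) ∧ ∀ q, c q = Finsupp.linearCombination ℤ b (m q)) →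
        AsymptoticallyInvariant V S) ∧
      (∀ G : ℕ → AddSubgroup (Fin (n + 1) → A),
        (∀ M c, c ∈ S M ↔ c ∈ G M) → (∀ v, (∀ q, v q ∈ V) → ∀ᶠ M in atTop, v ∈ G M) →
        AsymptoticallyInvariant V S)) := by
  obtain ⟨m, rfl⟩ : ∃ m, n = m + 1 := ⟨n - 1, by omega⟩
  refine ⟨fun hS => ?_, fun V hV => ⟨fun hS => ?_, ?_, ?_⟩⟩
  · have h1 : L5helper72.SG.AlmostAll S _ :=
      L5helper72.SG.pencil_equiE (A := A) (k := k) hℓ hζ hs hsep h2 hh (m := m)
        (fun hd => by have := hn' hd; omega) hS
    refine h1.mono fun c hc => ?_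
    have key : Y713.Jac.ShaPrimaryTrivial ℓ (F h (coeffPoly k' c)) k'[X] := by
      rw [F_eq]
      exact hc
    exact ⟨key, key.tate⟩
  · exact L5helper72.SG.Invt.equi hV (S := S) ⟨hS.1, fun v hv => hS.2 v hv⟩
  · intro J b hb hbV H hH hS
    have h1 := L5helper72.SG.invt_boxes V b hb hbV H hH S hS
    exact ⟨h1.1, fun v hv => h1.2 v hv⟩
  · intro G hS hG
    have h1 := L5helper72.SG.invt_subgroups {v : Fin (m + 1 + 1) → A |
      ∀ q, v q ∈ V} G (fun v hv => hG v hv) S hS
    exact ⟨h1.1, fun v hv => h1.2 v hv⟩

end Pool.Agent.Results.MP_1bdb59_nt.PencilPullbacks
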