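import Pool.Agent.L5helper62.TS.Many
import Pool.Agent.N918.EQ.Typ

/-!
# MP_1bdb59_nt: the Selmer group conjecture at `p`, with exact positive rank, for superelliptic curves along
# equidistributed sequences, metric sequences and random orbits, for all number fields at the same time

Let `p` be a prime, `q = p ^ (s + 1)`, `n ≥ 1`, `D ≥ 2`, `n ≤ r + 1`, `q r < n + D`, `p` prime to `n + D`, and
`R` odd and prime to `p`. For a vector `v` of `n + D + r + 2` integers let `ρ_1, …, ρ_n` be the first
coordinates, `u` monic of degree `D` and `b` of degree at most `r` with the next coordinates as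
coefficients, and `c` the last coordinate. For `d ≥ 1` and `M ≥ 1` let `J` be the Jacobian of the curve

  `w ^ q = (x ^ M - ρ_1) ⋯ (x ^ M - ρ_n) u(x ^ M) + (b(x ^ M) + c t ^ (p ^ d)) ^ q`

over `K = k(t)`, `k` a number field with the roots of unity of order `q` and a `p`-th root of `-1`; the dimension of
`J` is `(q - 1) ((n + D) M - 1) / 2`. The vector `v` works over `k` (`ManyWorks`) if for ALL `d ≥ 1` and ALL
`M` which divide a power of `R`:

1. the `p`-primary part of the Tate-Shafarevich group of `J` over `K` is zero; so
   `J(K) ⊗ ℤ_p → Sel(J, ℤ_p)` is an isomorphism;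
2. `n (q - 1)` elements of `J(K)` are a basis of `J(K)` at `p`: the rank of `J(K)` is exactly `n (q - 1)`;
3. every class of `V_p` of the Selmer group of `J` over `k^sep(t)` which is fixed by the Galois group
   comes from `J(K)` (the Tate conjecture for divisors at `p` for the surface).

The starting results `MP_17a657_ag.AlmostAllManySections` and `MP_97f789_ag.ThinSequences` show that 100 percent of
the `v` in boxes, and of the vectors of the integral parts of generalised polynomials, work.

Here the vectors form ONE sequence: `c 0, c 1, c 2, ...` is a sequence of integral vectors, `S 0, S 1, ...` are finite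
sets of times, and the property `GoodSequence n D r` of `(S, c)` means that for ALL primes `p`, ALL `s` and `R` as
above and ALL number fields `k` with the roots of unity of order `q` and a `p`-th root of `-1` the proportion of the
times `m` in `S T` for which the vector `c m` does not work over `k` tends to zero, `T → ∞`.

**Theorem.** This property is typical (`Pool.Agent.N918.EQ.Typical`):

(1) All `(S, c)` have it for which `c` is equidistributed along `S` modulo all `q'` prime to some number
(`S` is arbitrary: intervals, short intervals, the primes of an interval, any sparse sets).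

For the sets of times `{0, ..., T - 1}`:

(2) For any Koksma sequences `f_{i,0}, f_{i,1}, ...` on intervals, for almost all `x` in the box the
sequence `c m = (⌊f_{i,m}(x_i)⌋)_i` has it.

(3) For ARBITRARY real numbers `a_{i,m}` with `|a_{i,m} - a_{i,m'}| ≥ δ > 0`, `m ≠ m'` (any different
integers: factorials, `2 ^ m`, ...), for almost all real vectors `x` the sequence
`c m = (⌊a_{i,m} x_i⌋)_i` has it.

(4) For different natural numbers `k_m` and `ξ_i ≠ 0`, for almost all `x` with all `x_i > 1` the sequence
`c m = (⌊ξ_i x_i ^ (k_m)⌋)_i` has it.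

(5) Let `s_0, ..., s_l` be integral matrices of determinant one, of the size of the vectors, which generate the special
linear group modulo all `q'` prime to some number (by strong approximation: which generate a Zariski dense group,
possibly of infinite index), and let `v ≠ 0`. For independent uniformly distributed letters `w 0, w 1, ...` the random
orbit `c m = s_{w (m-1)} ... s_{w 0} v` has it almost surely.

In (2) - (5) there is ONE null set of `x`, or of words, for all `p`, `s`, `R` and all number fields. Moreover the
exceptional vectors for one field form a pronull set.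

Proof. The conclusions follow from finitely many tests modulo primes (`Pool.Agent.Y160.T6`, helpers 160, 833, with the
counting statements of helpers 100, 430, 737, 971), and each test is passed by a positive proportion of the residues
of `v` modulo each large prime `P` which is `1` modulo `p R`. There are infinitely many such primes with `k ⊂ ℚ_P`, so
the vectors which do not pass a test form a pronull set (`Pool.Agent.L5helper62.TS.bd_pro`, with the criterion
`Pool.Agent.N24.RW.crit`). It depends only on the isomorphism class of `k` (helper650), so there are countably many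
sets, and typical sequences rarely visit pronull sets (`Pool.Agent.N918.EQ`, helper918, with the engines
`Pool.Agent.N24.KM` and `Pool.Agent.N24.RW`).
-/

set_option autoImplicit false

namespace Pool.Agent.Results.MP_1bdb59_nt.PositiveRankTypical

open Filter Topology MeasureTheory Polynomial
open Pool.Agent.N24.RW (ProNull)
open Pool.Agent.N918.EQ (Typical RareIn)
open Pool.Agent.Y160.SL (ManyWorks)
open Pool.Agent.Y160.T6 (Exc)

/-- The proportion of the `m` in `S T` without the property `P` tends to zero, `T → ∞`. -/
def Usually (S : ℕ → Finset ℕ) (P : ℕ → Prop) : Prop :=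
  ∀ ε : ℝ, 0 < ε → ∃ T₀ : ℕ, ∀ T : ℕ, T₀ ≤ T →
    (({n : ℕ | n ∈ S T ∧ ¬ P n}.ncard : ℕ) : ℝ) ≤ ε * (S T).card

/-- The conditions for the numbers. -/
def Admissible (p s n D r R : ℕ) : Prop :=
  p.Prime ∧ p ^ (s + 1) * r < n + D ∧ p.Coprime (n + D) ∧ Odd R ∧ p.Coprime R

/-- For all `p`, `s`, `R` and all number fields `k` with the roots of unity of order `p ^ (s + 1)` and a `p`-th root
of `-1`: for most of the times `m` the vector `c m` works over `k`, for all `d ≥ 1` and all `M` which divide a power
of `R`. -/
def GoodSequence (n D r : ℕ) (S : ℕ → Finset ℕ) (c : ℕ → Fin (n + (D + (r + 2))) → ℤ) : Prop :=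
  ∀ p s R : ℕ, Admissible p s n D r R → ∀ (k : Type) [Field k] [NumberField k] (ζ η : k),
    IsPrimitiveRoot ζ (p ^ (s + 1)) → η ^ p = -1 →
      Usually S fun m => ManyWorks p (p ^ (s + 1)) n D r R k (c m)

/-- The data of a family and a number field. -/
abbrev Data : Type := ℚ[X] × ℕ × ℕ × ℕ

theorem data_countable : Countable Data := by
  have : Countable ℚ[X] := by
    rw [← Cardinal.mk_le_aleph0_iff]
    exact (Polynomial.cardinalMk_le_max (R := ℚ)).trans
      (max_le (Cardinal.mk_le_aleph0_iff.2 inferInstance) le_rfl)
  infer_instance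

/-- The exceptional vectors for one family and one number field, given by a polynomial. -/
def Exceptional (n D r : ℕ) (φ : Data) : Set (Fin (n + (D + (r + 2))) → ℤ) :=
  {v | ∃ _ : Fact (Irreducible φ.1), Admissible φ.2.1 φ.2.2.1 n D r φ.2.2.2 ∧
    v ∈ Exc φ.2.1 (φ.2.1 ^ (φ.2.2.1 + 1)) n D r φ.2.2.2 (AdjoinRoot φ.1)}

theorem exceptional_pro {n D r : ℕ} (hn : 0 < n) (hD : 2 ≤ D) (hnr : n ≤ r + 1) (φ : Data) :
    ProNull (Exceptional n D r φ) := by
  obtain ⟨f, p, s, R⟩ := φ
  by_cases hyp : Irreducible f ∧ Admissible p s n D r R
  · obtain ⟨hf, hp, hqr, hcop, hR, hpR⟩ := hyp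
    have hfF : Fact (Irreducible f) := ⟨hf⟩
    have hnf : NumberField (AdjoinRoot f) := Pool.Agent.N650.TH.numberField_adjoinRoot f
    have hcop' : (p ^ (s + 1)).Coprime (R * (n + D)) := (hpR.mul_right hcop).pow_left _
    have h1 := Pool.Agent.L5helper62.TS.exc_pro hp (Nat.pow_pos hp.pos) hn hD hnr hqr hR hcop'
      (AdjoinRoot f)
    refine (Pool.Agent.N24.RW.clo _).1 _ _ ?_ h1
    rintro v ⟨_, _, h⟩
    exact h
  · refine (Pool.Agent.N24.RW.clo _).1 _ _ ?_ Pool.Agent.L5helper62.TS.proNull_empty
    rintro v ⟨⟨h1⟩, h2, -⟩
    exact hyp ⟨h1, h2⟩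

/-- The vectors which do not work over `k` are exceptional for a polynomial which defines `k`. -/
theorem bad_subset {n D r : ℕ} (hn : 0 < n) (hD : 2 ≤ D) {p s R : ℕ} (hA : Admissible p s n D r R)
    (k : Type) [Field k] [NumberField k] {ζ η : k} (hζ : IsPrimitiveRoot ζ (p ^ (s + 1)))
    (hη : η ^ p = -1) : ∃ f : ℚ[X], {v | ¬ ManyWorks p (p ^ (s + 1)) n D r R k v} ⊆
      Exceptional n D r (f, p, s, R) := by
  obtain ⟨f, hf, ⟨e⟩⟩ := Pool.Agent.N650.TH.exists_adjoinRoot k
  refine ⟨f, ?_⟩
  intro v hv
  refine ⟨hf, hA, ?_⟩
  by_contra hcon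
  apply hv
  obtain ⟨hp, hqr, hcop, hR, hpR⟩ := hA
  change v ∉ Exc p (p ^ (s + 1)) n D r R (AdjoinRoot f) at hcon
  rw [Pool.Agent.N650.TH.exc_congr e p (p ^ (s + 1)) n D r R] at hcon
  exact Pool.Agent.L5helper62.TS.works_of_not_exc hp hn hD hqr hcop hR hpR k hζ hη hcon

/-- **The Selmer group conjecture at `p`, with exact rank `n (q - 1)`, for superelliptic curves along typical
sequences of coefficient vectors.** (1) The property `GoodSequence n D r` is typical. (2) For each number field `k`
the vectors which do not work over `k` form a pronull set. -/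
theorem result (n D r : ℕ) (hn : 0 < n) (hD : 2 ≤ D) (hnr : n ≤ r + 1) :
    Typical (GoodSequence n D r) ∧
    ∀ p s R : ℕ, Admissible p s n D r R → ∀ (k : Type) [Field k] [NumberField k] (ζ η : k),
      IsPrimitiveRoot ζ (p ^ (s + 1)) → η ^ p = -1 →
        ProNull {v : Fin (n + (D + (r + 2))) → ℤ | ¬ ManyWorks p (p ^ (s + 1)) n D r R k v} := by
  constructor
  · have := data_countable
    refine Pool.Agent.N918.EQ.typical_of (by rw [Fintype.card_fin]; omega) _ ?_
    intro X _ ν P S c hR
    have h1 : ∀ᵐ x ∂ν, ∀ φ : Data, P x → RareIn S (c x) (Exceptional n D r φ) := by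
      rw [ae_all_iff]
      intro φ
      exact hR _ (exceptional_pro hn hD hnr φ)
    filter_upwards [h1] with x hx hP
    intro p s R hA k _ _ ζ η hζ hη
    obtain ⟨f, hf⟩ := bad_subset hn hD hA k hζ hη
    exact (hx (f, p, s, R) hP).mono hf
  · intro p s R hA k _ _ ζ η hζ hη
    obtain ⟨f, hf⟩ := bad_subset hn hD hA k hζ hη
    exact (Pool.Agent.N24.RW.clo _).1 _ _ hf (exceptional_pro hn hD hnr _)

end Pool.Agent.Results.MP_1bdb59_nt.PositiveRankTypical
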